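import Pool.Agent.Y803.GR.BrnB

/-!
MP_f21a8b_al: the augmentation ideal of the group algebra of a group with a section isomorphic to a
free Burnside group of large prime power exponent is not nil, for every field.

The idea of the proof is explained in `Pool/Agent/Results/MP_331e4f_al/BurnsideGroups.lean`.
-/

set_option autoImplicit false

namespace Pool.Agent.Results.MP_f21a8b_al.BurnsideSections

open Pool.Agent.Y803.Brn Pool.Agent.Y803.GR

universe v

/-- Let `p` be a prime, let the free Burnside group `B(m, p^k)` be infinite, and let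
`m + 1 ≤ p^c`, `r ≥ 2` and `l ≥ k + 1 + c`. Let `M` be a group with a section `B(r, p^l)`
(`f : S → B(r, p^l)` onto, `S ≤ M`). Then `M` is not locally finite, and for every field `F` the
augmentation ideal of `F[M]` is not nil: it contains an element `x` which is not nilpotent, and
for which even `1 - x` is not invertible. -/
theorem result (F : Type) [Field F] (M : Type v) [Group M] (p : ℕ) [Fact p.Prime]
    (m k c r l : ℕ) (hinf : Infinite (Burnside m (p ^ k))) (hc : m + 1 ≤ p ^ c) (hr : 2 ≤ r)
    (hl : k + 1 + c ≤ l) (S : Subgroup M) (f : S →* Burnside r (p ^ l))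
    (hf : Function.Surjective f) :
    (∃ x ∈ Ideal.span (Set.range (fun g : M => MonoidAlgebra.of F M g - 1)),
      ¬ IsNilpotent x ∧ ¬ IsUnit (1 - x)) ∧
    ¬ ∀ H : Subgroup M, H.FG → Finite H := by
  obtain ⟨h1, h2⟩ := main F p m k c r l hinf hc hr hl
  refine ⟨?_, not_locFin_of_section (Set.finite_range _) (gen_B r (p ^ l)) S f hf⟩
  by_contra hcon
  push Not at hcon
  apply h1
  refine augLeJac_section ⟨S, f, hf⟩ fun x hx => ?_
  have hx' := mem_span_of_aug x hx
  rw [Ideal.mem_jacobson_iff]
  intro y
  have h1 : -(y * x) ∈ Ideal.span (Set.range (fun g : M => MonoidAlgebra.of F M g - 1)) :=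
    neg_mem (Ideal.mul_mem_left _ _ hx')
  have h2 : IsUnit (1 - -(y * x)) := by
    by_cases hn : IsNilpotent (-(y * x))
    · exact hn.isUnit_one_sub
    · exact hcon _ h1 hn
  obtain ⟨z, hz⟩ := h2.exists_left_inv
  refine ⟨z, ?_⟩
  rw [Ideal.mem_bot, sub_eq_zero, ← hz, sub_neg_eq_add, mul_add, mul_one, mul_assoc, add_comm]

end Pool.Agent.Results.MP_f21a8b_al.BurnsideSections
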