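import Pool.Agent.Y803.GR.SpnC

/-!
MP_f21a8b_al: the augmentation ideal of the group algebra of a group with a section isomorphic to a
spinal group over the `p`-ary tree is not nil, for every field.

The idea of the proof is explained in `Pool/Agent/Results/MP_331e4f_al/SpinalGroups.lean`: an element
`w` of the augmentation ideal of the group algebra of the spinal group with `1 - w` not invertible.
-/

set_option autoImplicit false

namespace Pool.Agent.Results.MP_f21a8b_al.SpinalSections

open Pool.Agent.Y803.Spinal

universe u v w

/-- Let `p` be a prime, `V` a finite vector space over `F_p` and `e_{n,x} : V → F_p`, `n ∈ ℕ`,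
`x ∈ F_p`, linear functionals such that for every `n` there is an `x ≠ 0` with `e_{n,x} ≠ 0`. Let
`GG e = ⟨a, V⟩` be the spinal group of the sequence, `S` a subgroup of a group `M` and
`f : S → GG e` a surjective homomorphism. Then `M` is not locally finite, and for every field `k`
the augmentation ideal of `k[M]` is not nil: it contains an element `x` which is not nilpotent,
and for which even `1 - x` is not invertible. -/
theorem result (k : Type u) [Field k] (M : Type w) [Group M] (p : ℕ) [Fact p.Prime]
    (V : Type v) [AddCommGroup V] [Module (ZMod p) V] [Finite V]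
    (e : ℕ → ZMod p → (V →ₗ[ZMod p] ZMod p)) (he : ∀ n, ∃ x, x ≠ 0 ∧ e n x ≠ 0) (S : Subgroup M)
    (f : S →* GG e) (hf : Function.Surjective f) :
    (∃ x ∈ Ideal.span (Set.range (fun g : M => MonoidAlgebra.of k M g - 1)),
      ¬ IsNilpotent x ∧ ¬ IsUnit (1 - x)) ∧
    ¬ ∀ H : Subgroup M, H.FG → Finite H := by
  refine ⟨?_, not_locally_finite he S f hf⟩
  by_contra hcon
  push Not at hcon
  apply kaplansky_spinal k he S f hf
  intro x hx
  rw [Ideal.mem_jacobson_iff]
  intro y
  have h1 : -(y * x) ∈ Ideal.span (Set.range (fun g : M => MonoidAlgebra.of k M g - 1)) :=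
    neg_mem (Ideal.mul_mem_left _ _ hx)
  have h2 : IsUnit (1 - -(y * x)) := by
    by_cases hn : IsNilpotent (-(y * x))
    · exact hn.isUnit_one_sub
    · exact hcon _ h1 hn
  obtain ⟨z, hz⟩ := h2.exists_left_inv
  refine ⟨z, ?_⟩
  rw [Ideal.mem_bot, sub_eq_zero, ← hz, sub_neg_eq_add, mul_add, mul_one, mul_assoc, add_comm]

end Pool.Agent.Results.MP_f21a8b_al.SpinalSections
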